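import Pool.Agent.H33R3.Bom.Stmts3

set_option autoImplicit false

namespace Pool.Agent.H527R3.Bom3

open Pool.Agent.H33R3.Bom

/-- harmonic sum over odd numbers -/
theorem oddHarm (k : ℕ) :
    (1 / 2) * Real.log (2 * (k : ℝ) + 1) ≤ ∑ i ∈ Finset.range k, 1 / (2 * (i : ℝ) + 1) := by
  induction k with
  | zero => simp
  | succ k ih =>
    rw [Finset.sum_range_succ]
    have hk : (0 : ℝ) < 2 * (k : ℝ) + 1 := by positivity
    have h1 : Real.log (2 * ((k + 1 : ℕ) : ℝ) + 1) =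
        Real.log (2 * (k : ℝ) + 1) + Real.log ((2 * (k : ℝ) + 3) / (2 * (k : ℝ) + 1)) := by
      rw [← Real.log_mul (by positivity) (by positivity)]
      congr 1
      push_cast
      field_simp
      ring
    have h2 := Real.log_le_sub_one_of_pos
      (show (0 : ℝ) < (2 * (k : ℝ) + 3) / (2 * (k : ℝ) + 1) by positivity)
    have h3 : (2 * (k : ℝ) + 3) / (2 * (k : ℝ) + 1) - 1 = 2 * (1 / (2 * (k : ℝ) + 1)) := by
      field_simp
      ring
    rw [h1]
    linarith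

theorem taskS : TaskS := by
  intro n hn
  have hnR : (100 : ℝ) ≤ n := by exact_mod_cast hn
  have hn0 : (0 : ℝ) < n := by linarith
  set ρ : ℝ := 1 - 1 / n with hρ
  set L : ℝ := Real.log n with hL
  have hinv : 1 / (n : ℝ) ≤ 1 / 100 := one_div_le_one_div_of_le (by norm_num) hnR
  have hinv0 : 0 < 1 / (n : ℝ) := by positivity
  have hρ0 : 0 < ρ := by rw [hρ]; linarith
  have hρ1 : ρ < 1 := by rw [hρ]; linarith
  have hL2 : 2 ≤ L := by
    rw [hL, Real.le_log_iff_exp_le hn0]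
    have h1 : Real.exp 2 = Real.exp 1 * Real.exp 1 := by rw [← Real.exp_add]; norm_num
    have h2 := Real.exp_one_lt_d9
    have h3 := Real.exp_pos 1
    rw [h1]
    nlinarith
  have hlog2 : Real.log 2 < 1 := by
    have := Real.log_two_lt_d9
    linarith
  have hlog20 : 0 < Real.log 2 := Real.log_pos (by norm_num)
  -- upper bound of ms
  have hms : ms ρ 0 ≤ 2 * L := by
    unfold ms
    simp only [if_true, mul_zero, zero_add, pow_one]
    have h1 : (1 + ρ) / (1 - ρ) = 2 * n - 1 := by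
      rw [hρ]
      field_simp
      ring
    rw [h1]
    have h2 : Real.log (2 * (n : ℝ) - 1) ≤ Real.log (2 * n) :=
      Real.log_le_log (by linarith) (by linarith)
    have h3 : Real.log (2 * (n : ℝ)) = Real.log 2 + L := by
      rw [hL, Real.log_mul (by norm_num) (by positivity)]
    have h4 : 0 ≤ Real.log (2 * (n : ℝ) - 1) := Real.log_nonneg (by linarith)
    have h5 : Real.log (2 * (n : ℝ) - 1) * ρ ≤ Real.log (2 * (n : ℝ) - 1) * 1 := by gcongr
    linarith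
  -- lower bound of the sum
  have hS : L / 5 ≤ ∑ i ∈ Finset.range (n / 4 + 1), qs ρ i := by
    have h1 : ∀ i ∈ Finset.range (n / 4 + 1),
        (98 / 100) * (1 / (2 * (i : ℝ) + 1)) ≤ qs ρ i := by
      intro i hi
      rw [Finset.mem_range] at hi
      have hi2 : 2 * (2 * i + 1) ≤ n + 2 := by omega
      have hi3 : 2 * (2 * (i : ℝ) + 1) ≤ n + 2 := by exact_mod_cast hi2
      have hb := one_add_mul_le_pow (show (-2 : ℝ) ≤ -(1 / n) by linarith) (2 * i + 1)
      have he : (1 : ℝ) + -(1 / n) = ρ := by rw [hρ]; ring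
      rw [he] at hb
      have hc : (49 / 100 : ℝ) ≤ 1 + ((2 * i + 1 : ℕ) : ℝ) * -(1 / n) := by
        push_cast
        have h6 : (2 * (i : ℝ) + 1) * (1 / n) ≤ ((n : ℝ) + 2) / 2 * (1 / n) := by
          apply mul_le_mul_of_nonneg_right _ hinv0.le
          linarith
        have h7 : ((n : ℝ) + 2) / 2 * (1 / n) = 1 / 2 + 1 / n := by
          field_simp
        linarith
      unfold qs
      rw [mul_one_div, div_le_div_iff_of_pos_right (by positivity)]
      linarith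
    have h2 := Finset.sum_le_sum h1
    rw [← Finset.mul_sum] at h2
    have h3 := oddHarm (n / 4 + 1)
    have h4 : (n : ℝ) / 2 ≤ 2 * ((n / 4 + 1 : ℕ) : ℝ) + 1 := by
      have : n ≤ 2 * (2 * (n / 4 + 1) + 1) := by omega
      have h5 : (n : ℝ) ≤ 2 * (2 * ((n / 4 + 1 : ℕ) : ℝ) + 1) := by exact_mod_cast this
      linarith
    have h5 : Real.log ((n : ℝ) / 2) ≤ Real.log (2 * ((n / 4 + 1 : ℕ) : ℝ) + 1) :=
      Real.log_le_log (by positivity) h4
    have h6 : Real.log ((n : ℝ) / 2) = L - Real.log 2 := by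
      rw [hL, Real.log_div (by positivity) (by norm_num)]
    linarith
  -- lower bound of the binomial coefficient
  have hC : (n : ℝ) ^ 3 / 60 ≤ ((n - 2 * (n / 4)).choose 3 : ℝ) := by
    set m : ℕ := n - 2 * (n / 4) with hm
    have h1 : (m + 1 - 3) ^ 3 ≤ m.descFactorial 3 := Nat.pow_sub_le_descFactorial m 3
    rw [Nat.descFactorial_eq_factorial_mul_choose] at h1
    have h2 : 12 * n ≤ 25 * (m + 1 - 3) := by omega
    have h3 : (12 : ℝ) * n ≤ 25 * ((m + 1 - 3 : ℕ) : ℝ) := by exact_mod_cast h2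
    have h4 : (12 / 25 : ℝ) * n ≤ ((m + 1 - 3 : ℕ) : ℝ) := by linarith
    have h5 : ((12 / 25 : ℝ) * n) ^ 3 ≤ ((m + 1 - 3 : ℕ) : ℝ) ^ 3 := by gcongr
    have h6 : ((m + 1 - 3 : ℕ) : ℝ) ^ 3 ≤ 6 * (m.choose 3 : ℝ) := by
      have : (((m + 1 - 3) ^ 3 : ℕ) : ℝ) ≤ ((Nat.factorial 3 * m.choose 3 : ℕ) : ℝ) := by
        exact_mod_cast h1
      have h7 : Nat.factorial 3 = 6 := rfl
      rw [h7] at this
      push_cast at this ⊢
      exact_mod_cast this
    have h8 : ((12 / 25 : ℝ) * n) ^ 3 = (1728 / 15625) * (n : ℝ) ^ 3 := by ring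
    have h9 : 0 ≤ (n : ℝ) ^ 3 := by positivity
    linarith
  have hn3 : 0 ≤ (n : ℝ) ^ 3 := by positivity
  have hL0 : 0 ≤ L := by linarith
  calc (n : ℝ) ^ 3 * L / 10 ^ 4 * (2 * ms ρ 0)
      ≤ (n : ℝ) ^ 3 * L / 10 ^ 4 * (2 * (2 * L)) := by gcongr
    _ = 3 * (L / 5) ^ 2 * ((n : ℝ) ^ 3 / 60) * (1 / 5) := by ring
    _ ≤ 3 * (L / 5) ^ 2 * ((n : ℝ) ^ 3 / 60) * 1 := by gcongr; norm_num
    _ = 3 * (L / 5) ^ 2 * ((n : ℝ) ^ 3 / 60) := by ring
    _ ≤ 3 * (∑ i ∈ Finset.range (n / 4 + 1), qs ρ i) ^ 2 *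
        ((n - 2 * (n / 4)).choose 3 : ℝ) := by gcongr

end Pool.Agent.H527R3.Bom3
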